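import Pool.Agent.EDX.Stmts3

/-!
Row FCT of block A of squad EDX: factorisation of the matrix and the two Hadamard bounds.
-/

set_option autoImplicit false

namespace Pool.Agent.EDX.H24

open Polynomial Finset Pool.Agent.EDG Pool.Agent.EDX Module

theorem digs (q₀ m : ℕ) : ∃ dig : ℕ → Fin m → Fin (2 ^ q₀), ∀ e, e < 2 ^ (q₀ * m) →
    ∑ j : Fin m, (dig e j : ℕ) * (2 ^ q₀) ^ (j : ℕ) = e := by
  have hpos : 0 < (2 ^ q₀) ^ m := by positivity
  refine ⟨fun e => finFunctionFinEquiv.symm ⟨e % ((2 ^ q₀) ^ m), Nat.mod_lt _ hpos⟩,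
    fun e he => ?_⟩
  have h := finFunctionFinEquiv_apply
    (finFunctionFinEquiv.symm (⟨e % ((2 ^ q₀) ^ m), Nat.mod_lt _ hpos⟩ : Fin ((2 ^ q₀) ^ m)))
  rw [Equiv.apply_symm_apply] at h
  rw [← h]
  exact Nat.mod_eq_of_lt (by rw [← pow_mul]; exact he)

theorem psu {R : Type} [CommSemiring R] {m N : ℕ} (f : Fin m → Fin N → R) :
    ∏ j, ∑ x, f j x = ∑ l : Fin m → Fin N, ∏ j, f j (l j) := by
  rw [Finset.prod_univ_sum, Fintype.piFinset_univ]

theorem evexp (hHDG : HdgStmt) {q₀ m : ℕ} (T : Matrix (Fin (2 ^ q₀)) (Fin (2 ^ q₀)) ℂ)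
    (hT : T.det ≠ 0) (b y : ℂ) (e : Fin m → Fin (2 ^ q₀)) :
    ev b y (h (∑ j : Fin m, (e j : ℕ) * (2 ^ q₀) ^ (j : ℕ))) =
      ∑ l : Fin m → Fin (2 ^ q₀), ∏ j, (T (e j) (l j) *
        (T⁻¹.mulVec (hv (2 ^ q₀) b (it b y (q₀ * (j : ℕ))))) (l j)) := by
  rw [hHDG, ← psu (fun j x => T (e j) x *
        (T⁻¹.mulVec (hv (2 ^ q₀) b (it b y (q₀ * (j : ℕ))))) x)]
  refine Finset.prod_congr rfl fun j _ => ?_
  have h1 : T.mulVec (T⁻¹.mulVec (hv (2 ^ q₀) b (it b y (q₀ * (j : ℕ))))) =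
      hv (2 ^ q₀) b (it b y (q₀ * (j : ℕ))) := by
    rw [Matrix.mulVec_mulVec, Matrix.mul_nonsing_inv _ (isUnit_iff_ne_zero.2 hT),
      Matrix.one_mulVec]
  have h2 := congrFun h1 (e j)
  exact h2.symm

theorem rowbound {q₀ m n : ℕ} (dig : ℕ → Fin m → Fin (2 ^ q₀))
    (hdig : ∀ e, e < 2 ^ (q₀ * m) → ∑ j : Fin m, (dig e j : ℕ) * (2 ^ q₀) ^ (j : ℕ) = e)
    (T : Matrix (Fin (2 ^ q₀)) (Fin (2 ^ q₀)) ℂ) {ι : Type} [Fintype ι] [DecidableEq ι]
    (σ : ι → ℕ × ℕ) (hσ : Function.Injective σ)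
    (hb : ∀ x, (σ x).1 < n ∧ (σ x).2 < 2 ^ (q₀ * m)) (s : ℕ) (l : Fin m → Fin (2 ^ q₀)) :
    ∑ r : ι, ‖(if s = (σ r).1 then ∏ j, T (dig (σ r).2 j) (l j) else 0 : ℂ)‖ ^ 2 ≤
      ∏ j, ∑ r, ‖T r (l j)‖ ^ 2 := by
  have h1 : ∀ r : ι, ‖(if s = (σ r).1 then ∏ j, T (dig (σ r).2 j) (l j) else 0 : ℂ)‖ ^ 2 =
      if s = (σ r).1 then ∏ j, ‖T (dig (σ r).2 j) (l j)‖ ^ 2 else 0 := by
    intro r
    split_ifs with h
    · rw [norm_prod, Finset.prod_pow]
    · simp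
  rw [Finset.sum_congr rfl fun r _ => h1 r, ← Finset.sum_filter,
    psu (fun j x => ‖T x (l j)‖ ^ 2)]
  have hinj : Set.InjOn (fun r : ι => dig (σ r).2)
      ((univ.filter fun r : ι => s = (σ r).1 : Finset ι) : Set ι) := by
    intro r hr r' hr' h
    have h2 : (σ r).1 = (σ r').1 := by
      have e1 := (Finset.mem_filter.1 (Finset.mem_coe.1 hr)).2
      have e2 := (Finset.mem_filter.1 (Finset.mem_coe.1 hr')).2
      rw [← e1, ← e2]
    have h3 : (σ r).2 = (σ r').2 := by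
      rw [← hdig _ (hb r).2, ← hdig _ (hb r').2]
      have h4 : dig (σ r).2 = dig (σ r').2 := h
      rw [h4]
    exact hσ (Prod.ext h2 h3)
  have h5 := Finset.sum_image (f := fun e : Fin m → Fin (2 ^ q₀) => ∏ j, ‖T (e j) (l j)‖ ^ 2)
    hinj
  rw [← h5]
  exact Finset.sum_le_sum_of_subset_of_nonneg (Finset.subset_univ _)
    fun e _ _ => Finset.prod_nonneg fun j _ => by positivity

theorem colbound {q₀ m : ℕ} (A : ℝ) (c : Fin m → Fin (2 ^ q₀) → ℂ)
    (hc : ∀ j, ∑ l, ‖c j l‖ ^ 2 ≤ A) (v : ℂ) (V : ℝ) (hv : ‖v‖ ^ 2 ≤ V) :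
    ∑ l : Fin m → Fin (2 ^ q₀), ‖v * ∏ j, c j (l j)‖ ^ 2 ≤ V * A ^ m := by
  have h1 : ∀ l : Fin m → Fin (2 ^ q₀), ‖v * ∏ j, c j (l j)‖ ^ 2 =
      ‖v‖ ^ 2 * ∏ j, ‖c j (l j)‖ ^ 2 := by
    intro l
    rw [norm_mul, mul_pow, norm_prod, Finset.prod_pow]
  rw [Finset.sum_congr rfl fun l _ => h1 l, ← Finset.mul_sum,
    ← psu (fun j x => ‖c j x‖ ^ 2)]
  have h2 : ∏ j, ∑ x, ‖c j x‖ ^ 2 ≤ A ^ m := by
    have h3 : ∏ j : Fin m, ∑ x, ‖c j x‖ ^ 2 ≤ ∏ _j : Fin m, A :=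
      Finset.prod_le_prod (fun j _ => Finset.sum_nonneg fun x _ => by positivity)
        fun j _ => hc j
    rw [Finset.prod_const, Finset.card_univ, Fintype.card_fin] at h3
    exact h3
  exact mul_le_mul hv h2 (Finset.prod_nonneg fun j _ => Finset.sum_nonneg fun x _ => by positivity)
    ((by positivity : (0 : ℝ) ≤ ‖v‖ ^ 2).trans hv)

/-- the scaled powers -/
noncomputable def vv (q : ℕ) (b : ℂ) (s : ℕ) : ℂ :=
  if s < q then (2 * b) ^ s else (2 * b / 4) ^ s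

/-- the scaling factors -/
noncomputable def ww (q s : ℕ) : ℂ := if s < q then 1 else 4 ^ s

theorem ww_vv (q : ℕ) (b : ℂ) (s : ℕ) : ww q s * vv q b s = (2 * b) ^ s := by
  unfold ww vv
  split_ifs
  · rw [one_mul]
  · rw [← mul_pow]
    congr 1
    ring

theorem vv_bound (q : ℕ) (b : ℂ) (hb : ‖b‖ ≤ 2) (s : ℕ) : ‖vv q b s‖ ^ 2 ≤ 16 ^ q := by
  have h2 : ‖(2 : ℂ) * b‖ ≤ 4 := by
    rw [norm_mul, Complex.norm_two]
    linarith
  unfold vv
  split_ifs with h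
  · have h3 : ‖((2 : ℂ) * b) ^ s‖ ≤ 4 ^ s := by
      rw [norm_pow]
      exact pow_le_pow_left₀ (norm_nonneg _) h2 s
    have h4 : (4 : ℝ) ^ s ≤ 4 ^ q := pow_le_pow_right₀ (by norm_num) h.le
    have h5 : ‖((2 : ℂ) * b) ^ s‖ ^ 2 ≤ (4 ^ q) ^ 2 :=
      pow_le_pow_left₀ (norm_nonneg _) (h3.trans h4) 2
    have e : ((4 : ℝ) ^ q) ^ 2 = 16 ^ q := by
      rw [← pow_mul, mul_comm, pow_mul]
      norm_num
    rw [← e]
    exact h5
  · have h3 : ‖(2 : ℂ) * b / 4‖ ≤ 1 := by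
      rw [norm_div]
      have : ‖(4 : ℂ)‖ = 4 := by norm_num
      rw [this]
      linarith
    have h4 : ‖((2 : ℂ) * b / 4) ^ s‖ ≤ 1 := by
      rw [norm_pow]
      exact pow_le_one₀ (norm_nonneg _) h3
    have h5 : ‖((2 : ℂ) * b / 4) ^ s‖ ^ 2 ≤ 1 := pow_le_one₀ (norm_nonneg _) h4
    exact h5.trans (one_le_pow₀ (by norm_num))

theorem ww_bound (q n s : ℕ) (hs : s < n) : ‖ww q s‖ ^ 2 ≤ if q ≤ s then 4 ^ (2 * n) else 1 := by
  unfold ww
  by_cases h : s < q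
  · rw [if_pos h, if_neg (by omega)]
    simp
  · rw [if_neg h, if_pos (by omega), norm_pow]
    have : ‖(4 : ℂ)‖ = 4 := by norm_num
    rw [this, ← pow_mul]
    exact pow_le_pow_right₀ (by norm_num) (by omega)

theorem fct (hHDG : HdgStmt) (hBLK : BlkStmt) : FctStmt := by
  intro q₀ m n q M A T ι _ _ pt cl σ hT hpt hA hσ hb
  obtain ⟨dig, hdig⟩ := digs q₀ m
  set c : ι → Fin m → Fin (2 ^ q₀) → ℂ := fun p j => (T (cl p))⁻¹.mulVec
      (hv (2 ^ q₀) (pt p).1 (it (pt p).1 (pt p).2 (q₀ * (j : ℕ)))) with hc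
  set B : Matrix ι (Fin M × Fin n × (Fin m → Fin (2 ^ q₀))) ℂ := Matrix.of fun r x =>
      if (x.2.1 : ℕ) = (σ r).1 then ∏ j, T x.1 (dig (σ r).2 j) (x.2.2 j) else 0 with hB
  set Y : Matrix (Fin M × Fin n × (Fin m → Fin (2 ^ q₀))) ι ℂ := Matrix.of fun x p =>
      if x.1 = cl p then vv q (pt p).1 (x.2.1 : ℕ) * ∏ j, c p j (x.2.2 j) else 0 with hY
  have hBY : ∀ r p, (B * Y) r p = vv q (pt p).1 (σ r).1 * ev (pt p).1 (pt p).2 (h (σ r).2) := by
    intro r p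
    rw [Matrix.mul_apply, Fintype.sum_prod_type,
      Finset.sum_eq_single (cl p) (fun a _ ha => ?_) (fun h => absurd (Finset.mem_univ _) h),
      Fintype.sum_prod_type,
      Finset.sum_eq_single (⟨(σ r).1, (hb r).1⟩ : Fin n) (fun s _ hs => ?_)
        (fun h => absurd (Finset.mem_univ _) h)]
    · have e1 := evexp hHDG (T (cl p)) (hT (cl p)) (pt p).1 (pt p).2 (dig (σ r).2)
      rw [hdig _ (hb r).2] at e1
      rw [e1, Finset.mul_sum]
      refine Finset.sum_congr rfl fun l _ => ?_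
      rw [hB, hY, Matrix.of_apply, Matrix.of_apply, if_pos rfl, if_pos rfl,
        Finset.prod_mul_distrib]
      ring
    · refine Finset.sum_eq_zero fun l _ => ?_
      rw [hB, Matrix.of_apply, if_neg, zero_mul]
      intro h
      exact hs (Fin.ext h)
    · refine Finset.sum_eq_zero fun x _ => ?_
      rw [hY, Matrix.of_apply, if_neg ha, mul_zero]
  have hdet : (Matrix.of fun p y : ι => (2 * (pt p).1) ^ (σ y).1 *
      ev (pt p).1 (pt p).2 (h (σ y).2)).det = (∏ y, ww q (σ y).1) * (B * Y).det := by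
    rw [← Matrix.det_transpose (B * Y), ← Matrix.det_mul_row]
    congr 1
    ext p y
    rw [Matrix.of_apply, Matrix.of_apply, Matrix.transpose_apply, hBY, ← mul_assoc, ww_vv]
  rw [hdet, norm_mul, mul_pow, mul_assoc]
  refine mul_le_mul ?_ ?_ (by positivity) (by positivity)
  · rw [norm_prod, ← Finset.prod_pow]
    refine (Finset.prod_le_prod (fun y _ => by positivity)
      fun y _ => ww_bound q n (σ y).1 (hb y).1).trans ?_
    rw [← Finset.prod_filter, Finset.prod_const, ← pow_mul]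
  · refine (hBLK ι _ B Y).trans ?_
    rw [mul_comm]
    have hcol : ∀ p : ι, ∑ x, ‖Y x p‖ ^ 2 ≤ n * 16 ^ q * A ^ m := by
      intro p
      rw [Fintype.sum_prod_type,
        Finset.sum_eq_single (cl p) (fun a _ ha => ?_) (fun h => absurd (Finset.mem_univ _) h),
        Fintype.sum_prod_type]
      · have h1 : ∀ s : Fin n, ∑ l : Fin m → Fin (2 ^ q₀), ‖Y (cl p, s, l) p‖ ^ 2 ≤
            16 ^ q * A ^ m := by
          intro s
          have e2 : ∀ l : Fin m → Fin (2 ^ q₀), Y (cl p, s, l) p =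
              vv q (pt p).1 (s : ℕ) * ∏ j, c p j (l j) := by
            intro l
            rw [hY, Matrix.of_apply, if_pos rfl]
          rw [Finset.sum_congr rfl fun l _ => by rw [e2 l]]
          exact colbound A (c p) (fun j => hA p _) _ _ (vv_bound q _ (hpt p) s)
        refine (Finset.sum_le_sum fun s _ => h1 s).trans ?_
        rw [Finset.sum_const, Finset.card_univ, Fintype.card_fin, nsmul_eq_mul, mul_assoc]
      · refine Finset.sum_eq_zero fun x _ => ?_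
        rw [hY, Matrix.of_apply, if_neg ha]
        simp
    have hrow : ∀ x : Fin M × Fin n × (Fin m → Fin (2 ^ q₀)), ∑ r, ‖B r x‖ ^ 2 ≤
        ∏ j, ∑ r, ‖T x.1 r (x.2.2 j)‖ ^ 2 := by
      rintro ⟨a, s, l⟩
      have h1 := rowbound dig hdig (T a) σ hσ hb (s : ℕ) l
      exact h1
    refine mul_le_mul ?_ ?_ (Finset.prod_nonneg fun x _ => by positivity) ?_
    · refine (Finset.prod_le_prod (fun p _ => Finset.sum_nonneg fun x _ => by positivity)
        fun p _ => hcol p).trans ?_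
      rw [Finset.prod_const, Finset.card_univ]
    · refine (Finset.prod_le_prod (fun x _ => by positivity)
        fun x _ => add_le_add_right (hrow x) 1).trans ?_
      rw [Fintype.prod_prod_type]
      refine le_of_eq (Finset.prod_congr rfl fun a _ => ?_)
      rw [Fintype.prod_prod_type]
      show ∏ _x : Fin n, ∏ l : Fin m → Fin (2 ^ q₀), (1 + ∏ j, ∑ r, ‖T a r (l j)‖ ^ 2) = _
      rw [Finset.prod_const, Finset.card_univ, Fintype.card_fin]
    · by_cases hι : Nonempty ι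
      · obtain ⟨p⟩ := hι
        have h0 : (0 : ℝ) ≤ n * 16 ^ q * A ^ m :=
          (Finset.sum_nonneg fun x _ => by positivity).trans (hcol p)
        exact pow_nonneg h0 _
      · have h0 : Fintype.card ι = 0 := by
          rw [Fintype.card_eq_zero_iff]
          exact not_nonempty_iff.1 hι
        rw [h0, pow_zero]
        exact zero_le_one

end Pool.Agent.EDX.H24
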